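import Pool.Agent.LibPcg.PM11
import Pool.Agent.LibPcg.PN15
import Pool.Agent.LibPcg.PX1

/-!
MP_dff376_lc, part (b): the recognition problem of `k`-AND-PCGs (`k` part of the input) is
NP-complete, already on complements of bipartite graphs.
-/

set_option autoImplicit false

namespace Pool.Agent.Results.MP_dff376_lc.AndPcgNPComplete

open Pool.Agent.LibPcg Pool.Agent.LibComplexity

/-- Recognition of `k`-AND-PCGs is in `NP`, and every language in `NP` is reducible to it by a
polynomial-time function whose values encode pairs `(G, k)` with `k ≥ 1` and `G` the complement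
of a bipartite graph. (The last part shows that it does not matter that `k` is given in unary:
for `k ≥ n ^ 2` every graph with `n` vertices is a `k`-AND-PCG.) -/
theorem result :
    InNP ∅ AndPCG ∧
    (∀ L : Set (List Bool), InNP ∅ L → ∃ f : List Bool → List Bool, InFP ∅ f ∧
      (∀ w, w ∈ L ↔ f w ∈ AndPCG) ∧
      ∀ w, ∃ (n k : ℕ) (G : SimpleGraph (Fin n)), 1 ≤ k ∧ CoBipartite G ∧ f w = encode G k ∧
        (w ∈ L ↔ IsAndPCG k G)) ∧
    ∀ (n k : ℕ) (G : SimpleGraph (Fin n)), 1 ≤ n → n ^ 2 ≤ k → IsAndPCG k G := by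
  refine ⟨andPCG_inNP, fun L hL => ?_, fun n k G hn hk => isAndPCG_of_le hn (by
    rw [← pow_two]; exact hk) G⟩
  obtain ⟨f, hf, h⟩ := andPCG_hard L hL
  refine ⟨f, hf, fun w => ?_, h⟩
  obtain ⟨n, k, G, hk, -, hfw, hw⟩ := h w
  rw [hw, hfw]
  constructor
  · intro h1
    exact ⟨n, k, G, hk, rfl, h1⟩
  · rintro ⟨n', k', G', hk', he, h'⟩
    have h1 := word_injective he
    simp only [Prod.mk.injEq] at h1
    obtain ⟨rfl, rfl, h2⟩ := h1
    have h3 : G = G' := by
      ext u v
      rw [← matrixBits_getD' G u v, ← matrixBits_getD' G' u v, h2]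
    rw [h3]
    exact h'

end Pool.Agent.Results.MP_dff376_lc.AndPcgNPComplete
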