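import Pool.Agent.LibOpc.OM5
import Pool.Agent.LibOpc.OF2

/-!
MP_dff376_lc, part (a): the recognition problem of `k`-OR-PCGs is NP-complete, for every fixed
`k ≥ k₀` and for `k` part of the input, already on bipartite graphs.
-/

set_option autoImplicit false

namespace Pool.Agent.Results.MP_dff376_lc.OrPcgNPComplete

open Pool.Agent.LibPcg Pool.Agent.LibComplexity Pool.Agent.LibOpc

/-- Recognition of `k`-OR-PCGs is in `NP`, both if `k` is part of the input and for every fixed
`k ≥ 1`; there is `k₀` such that for every fixed `k ≥ k₀` every language in `NP` is reducible to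
both problems by a polynomial-time function whose values encode pairs `(G, k)` with `G` bipartite.
(The last part shows that it does not matter that `k` is given in unary: for `k ≥ n ^ 2` every
graph with `n` vertices is a `k`-OR-PCG.) -/
theorem result :
    InNP ∅ OrPCG ∧ (∀ k, 1 ≤ k → InNP ∅ (OrPCGk k)) ∧
    (∃ k₀ : ℕ, ∀ k, k₀ ≤ k → ∀ L : Set (List Bool), InNP ∅ L →
      ∃ f : List Bool → List Bool, InFP ∅ f ∧ (∀ w, w ∈ L ↔ f w ∈ OrPCGk k) ∧
        (∀ w, w ∈ L ↔ f w ∈ OrPCG) ∧
        ∀ w, ∃ (n : ℕ) (G : SimpleGraph (Fin n)), Bip G ∧ f w = encode G k ∧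
          (w ∈ L ↔ IsOrPCG k G)) ∧
    ∀ (n k : ℕ) (G : SimpleGraph (Fin n)), 1 ≤ n → n ^ 2 ≤ k → IsOrPCG k G := by
  refine final (36 * r0 ^ 2 + 4) fun k hk => ?_
  obtain ⟨e, he⟩ := sat_iff_orPCG k hk
  exact ⟨e, fun φ => he φ⟩

end Pool.Agent.Results.MP_dff376_lc.OrPcgNPComplete
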