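import Pool.Agent.LibPcn.M8
import Pool.Agent.LibPcn.C19
import Pool.Agent.LibPcg.PX1
import Pool.Agent.LibOpc.OX1

/-!
MP_dff376_lc, Q1 (a), (b), (c): the recognition problems of `k`-OR-PCGs, `k`-AND-PCGs and
`k`-interval-PCGs are NP-complete, already for `k = 1` (recognition of PCGs), on bipartite graphs.
-/

set_option autoImplicit false

namespace Pool.Agent.Results.MP_dff376_lc.PcgNPComplete

open Pool.Agent.LibPcg Pool.Agent.LibComplexity Pool.Agent.LibOpc Pool.Agent.LibPcn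

/-- The recognition problems of `k`-OR-PCGs, `k`-AND-PCGs, `k`-interval-PCGs (`k` part of the input)
and of PCGs are in `NP`, and every language in `NP` is reducible to all four of them by one
polynomial-time function whose values encode pairs `(G, 1)` with `G` bipartite. (The last part
shows that it does not matter that `k` is given in unary: for `k ≥ n ^ 2` every graph with `n`
vertices is in all three classes.) -/
theorem result :
    (InNP ∅ OrPCG ∧ InNP ∅ AndPCG ∧ InNP ∅ IntPCG ∧ InNP ∅ PCG1) ∧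
    (∀ L : Set (List Bool), InNP ∅ L → ∃ f : List Bool → List Bool, InFP ∅ f ∧
      (∀ w, (w ∈ L ↔ f w ∈ OrPCG) ∧ (w ∈ L ↔ f w ∈ AndPCG) ∧ (w ∈ L ↔ f w ∈ IntPCG) ∧
        (w ∈ L ↔ f w ∈ PCG1)) ∧
      ∀ w, ∃ (n : ℕ) (G : SimpleGraph (Fin n)), Bip G ∧ f w = encode G 1) ∧
    ∀ (n k : ℕ) (G : SimpleGraph (Fin n)), 1 ≤ n → n ^ 2 ≤ k →
      IsOrPCG k G ∧ IsAndPCG k G ∧ IsIntPCG k G := by
  refine ⟨⟨orPCG_inNP, andPCG_inNP, intPCG_inNP, pcg1_inNP⟩, fun L hL => ?_, fun n k G hn hk => ?_⟩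
  · obtain ⟨f, hf, h⟩ := pcg_hard L hL
    refine ⟨f, hf, fun w => ?_, fun w => ?_⟩
    · obtain ⟨n, G, -, hfw, hw⟩ := h w
      rw [hfw, hw, mem_orPCG_iff G le_rfl, mem_andPCG_iff G le_rfl, mem_intPCG_iff G le_rfl,
        mem_pcg1_iff, isOrPCG_one, isAndPCG_one, isIntPCG_one]
      exact ⟨Iff.rfl, Iff.rfl, Iff.rfl, Iff.rfl⟩
    · obtain ⟨n, G, hb, hfw, -⟩ := h w
      exact ⟨n, G, hb, hfw⟩
  · rw [pow_two] at hk
    exact ⟨isOrPCG_of_le hn hk G, isAndPCG_of_le hn hk G, isIntPCG_of_le hn hk G⟩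

end Pool.Agent.Results.MP_dff376_lc.PcgNPComplete
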